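import Pool.Agent.Helper89.OS.St2

set_option autoImplicit false

namespace Pool.Agent.Helper34.OS

open Matrix ComplexConjugate Pool.Agent.Helper94.YF Pool.Agent.Helper94.YG
open Pool.Agent.Helper89.OS

private lemma dvd2 {p : ℕ} {Q : ℂ → Prop} (hQ : PI p Q) (hp : p.Prime) (E : ℤ) (S : ℂ)
    (hS : IsIntegral ℤ S) (hnS : ¬ Q S) (h : IsIntegral ℤ (S * (E : ℂ) / (p : ℂ) ^ 2)) :
    ((p : ℤ) ^ 2) ∣ E := by
  have hp0 : (p : ℂ) ≠ 0 := by exact_mod_cast hp.ne_zero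
  have hpi : IsIntegral ℤ (p : ℂ) := by
    have : IsIntegral ℤ (algebraMap ℤ ℂ (p : ℤ)) := isIntegral_algebraMap
    simpa using this
  have hQp : Q ((p : ℤ) : ℂ) := (hQ.int_iff p).2 (dvd_refl _)
  obtain ⟨T, hT⟩ : ∃ T : ℂ, T = S * (E : ℂ) / (p : ℂ) ^ 2 := ⟨_, rfl⟩
  rw [← hT] at h
  have hEi : ∀ k : ℤ, IsIntegral ℤ (k : ℂ) := fun k => by
    have : IsIntegral ℤ (algebraMap ℤ ℂ k) := isIntegral_algebraMap
    simpa using this
  have h1 : S * (E : ℂ) = (T * p) * ((p : ℤ) : ℂ) := by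
    rw [hT]
    push_cast
    field_simp
  have h2 : Q (S * (E : ℂ)) := by
    rw [h1]
    exact hQ.mul _ _ (h.mul hpi) hQp
  have h3 : (p : ℤ) ∣ E := by
    rcases hQ.prime _ _ hS (hEi E) h2 with h | h
    · exact absurd h hnS
    · exact (hQ.int_iff E).1 h
  obtain ⟨E', rfl⟩ := h3
  have h4 : S * (E' : ℂ) = T * ((p : ℤ) : ℂ) := by
    rw [hT]
    push_cast
    field_simp
  have h5 : Q (S * (E' : ℂ)) := by
    rw [h4]
    exact hQ.mul _ _ h hQp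
  have h6 : (p : ℤ) ∣ E' := by
    rcases hQ.prime _ _ hS (hEi E') h5 with h | h
    · exact absurd h hnS
    · exact (hQ.int_iff E').1 h
  obtain ⟨E'', rfl⟩ := h6
  exact ⟨E'', by ring⟩

private lemma eqp2 (p : ℕ) (m : ℤ) (h0 : 0 < m) (h1 : m ≤ (p : ℤ) ^ 2) (h2 : ((p : ℤ) ^ 2) ∣ m) :
    m = (p : ℤ) ^ 2 :=
  le_antisymm h1 (Int.le_of_dvd h0 h2)

open Classical in
theorem hBLK : StBLK := by
  intro hRAT hCGR hISO I _ _ p a X Q hQ hx
  have hpp : p.Prime := X.prime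
  have hso : ∀ k, X.s X.o k = X.y k := fun k => by rw [X.s_symm, X.s_o]
  have hy0 : X.y X.o ≠ 0 := fun h => hx (h ▸ dvd_zero _)
  have hnorm : ∀ i, ∑ k, ‖X.s k i‖ ^ 2 = (p : ℝ) ^ 2 := by
    intro i
    have h1 := X.s_uni i i
    rw [if_pos rfl] at h1
    have h2 : ∀ k, X.s i k * conj (X.s i k) = ((‖X.s k i‖ ^ 2 : ℝ) : ℂ) := by
      intro k
      rw [Complex.mul_conj, X.s_symm i k, Complex.normSq_eq_norm_sq]
    rw [Finset.sum_congr rfl (fun k _ => h2 k), ← Complex.ofReal_sum] at h1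
    exact_mod_cast h1
  have hysq : ∑ k, X.y k ^ 2 = (p : ℤ) ^ 2 := by
    have h1 := hnorm X.o
    have h2 : ∀ k, ‖X.s k X.o‖ ^ 2 = ((X.y k ^ 2 : ℤ) : ℝ) := by
      intro k
      rw [X.s_o, Complex.norm_intCast, sq_abs]
      push_cast
      ring
    rw [Finset.sum_congr rfl (fun k _ => h2 k)] at h1
    exact_mod_cast h1
  have hoB : X.o ∈ B0 X Q := by
    unfold B0
    rw [Finset.mem_filter]
    refine ⟨Finset.mem_univ _, fun k => ?_⟩
    rw [X.o_chi, sub_self]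
    exact hQ.zero
  have hBcgr : ∀ j ∈ B0 X Q, X.y j ≠ 0 ∧ ¬ p ∣ X.d j ∧ ¬ (p : ℤ) ∣ X.y j ∧
      ∀ i, Q (X.s j i - X.d j * X.y i) := by
    intro j hj
    unfold B0 at hj
    rw [Finset.mem_filter] at hj
    exact hCGR hRAT I p a X Q hQ hx j hj.2
  -- the block is the set of all `j` with `y j ≠ 0`
  have hB0 : ∀ j, j ∉ B0 X Q → X.y j = 0 := by
    obtain ⟨S, hS, hnS, hI⟩ := hISO I p a X Q hQ X.o X.o
    have h1 : (∑ j ∈ B0 X Q, conj (X.s j X.o) * X.s j X.o) =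
        ((∑ j ∈ B0 X Q, X.y j ^ 2 : ℤ) : ℂ) := by
      push_cast
      refine Finset.sum_congr rfl (fun j _ => ?_)
      rw [X.s_o, map_intCast]
      ring
    rw [h1] at hI
    have h2 := dvd2 hQ hpp _ S hS hnS hI
    have h3 : 0 < ∑ j ∈ B0 X Q, X.y j ^ 2 := by
      refine lt_of_lt_of_le (by positivity : 0 < X.y X.o ^ 2) ?_
      exact Finset.single_le_sum (f := fun j => X.y j ^ 2) (fun _ _ => sq_nonneg _) hoB
    have h4 : ∑ j ∈ B0 X Q, X.y j ^ 2 + ∑ j ∈ (B0 X Q)ᶜ, X.y j ^ 2 = (p : ℤ) ^ 2 := by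
      rw [Finset.sum_add_sum_compl, hysq]
    have h5 : 0 ≤ ∑ j ∈ (B0 X Q)ᶜ, X.y j ^ 2 := Finset.sum_nonneg (fun _ _ => sq_nonneg _)
    have h6 := eqp2 p _ h3 (by linarith) h2
    have h7 : ∑ j ∈ (B0 X Q)ᶜ, X.y j ^ 2 = 0 := by linarith
    intro j hj
    have h8 := (Finset.sum_eq_zero_iff_of_nonneg (fun _ _ => sq_nonneg _)).1 h7 j
      (Finset.mem_compl.2 hj)
    exact pow_eq_zero_iff (two_ne_zero) |>.1 h8
  have hBiff : ∀ j, j ∈ B0 X Q ↔ X.y j ≠ 0 := by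
    intro j
    constructor
    · intro hj
      exact (hBcgr j hj).1
    · intro hj
      by_contra hc
      exact hj (hB0 j hc)
  have hsup : ∀ i j, X.y i ≠ 0 → X.y j = 0 → X.s j i = 0 := by
    intro i j hi hj
    obtain ⟨S, hS, hnS, hI⟩ := hISO I p a X Q hQ i i
    obtain ⟨E, hE⟩ : ∃ E : ℂ, E = ∑ j ∈ B0 X Q, conj (X.s j i) * X.s j i := ⟨_, rfl⟩
    have hci : ∀ u v, IsIntegral ℤ (conj (X.s u v)) := fun u v => by
      rw [X.conj_s]; exact X.s_int _ _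
    obtain ⟨m, hm⟩ : ∃ m : ℤ, (m : ℂ) = E := by
      refine hRAT.1 E ?_ ?_
      · rw [hE]
        exact IsIntegral.sum _ (fun j _ => (hci _ _).mul (X.s_int _ _))
      · intro σ
        obtain ⟨c, hc⟩ := X.gal σ
        have hgi : ∀ k, σ (conj (X.s k i) * X.s k i) =
            conj (X.s (X.pi c k) i) * X.s (X.pi c k) i := by
          intro k
          rw [map_mul, X.s_symm k i, X.conj_s, hc, hc, ← X.pi_mul, mul_comm c, X.pi_mul,
            ← X.conj_s, X.s_symm (X.pi c k) i]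
        rw [hE, map_sum, Finset.sum_congr rfl (fun k _ => hgi k)]
        refine Finset.sum_nbij' (X.pi c) (X.pi c⁻¹) ?_ ?_ ?_ ?_ ?_
        · intro k hk
          rw [hBiff] at hk ⊢
          rwa [X.pi_y]
        · intro k hk
          rw [hBiff] at hk ⊢
          rwa [X.pi_y]
        · intro k _
          rw [← X.pi_mul, inv_mul_cancel, X.pi_one]
        · intro k _
          rw [← X.pi_mul, mul_inv_cancel, X.pi_one]
        · intro k _
          rfl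
    have hreal : (m : ℝ) = ∑ j ∈ B0 X Q, ‖X.s j i‖ ^ 2 := by
      have h1 : ∀ k, conj (X.s k i) * X.s k i = ((‖X.s k i‖ ^ 2 : ℝ) : ℂ) := by
        intro k
        rw [mul_comm, Complex.mul_conj, Complex.normSq_eq_norm_sq]
      have h2 : ((m : ℝ) : ℂ) = ((∑ j ∈ B0 X Q, ‖X.s j i‖ ^ 2 : ℝ) : ℂ) := by
        rw [Complex.ofReal_intCast, hm, hE, Finset.sum_congr rfl (fun k _ => h1 k),
          ← Complex.ofReal_sum]
      exact_mod_cast h2
    rw [← hE, ← hm] at hI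
    have h2 := dvd2 hQ hpp _ S hS hnS hI
    have h3 : 0 < m := by
      have h4 : ‖X.s X.o i‖ ^ 2 ≤ ∑ j ∈ B0 X Q, ‖X.s j i‖ ^ 2 :=
        Finset.single_le_sum (f := fun j => ‖X.s j i‖ ^ 2) (fun _ _ => sq_nonneg _) hoB
      have h5 : 0 < ‖X.s X.o i‖ ^ 2 := by
        rw [hso, Complex.norm_intCast]
        have : ((X.y i : ℤ) : ℝ) ≠ 0 := by exact_mod_cast hi
        positivity
      have h6 : (0 : ℝ) < m := by rw [hreal]; linarith
      exact_mod_cast h6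
    have h4 : ∑ j ∈ B0 X Q, ‖X.s j i‖ ^ 2 + ∑ j ∈ (B0 X Q)ᶜ, ‖X.s j i‖ ^ 2 = (p : ℝ) ^ 2 := by
      rw [Finset.sum_add_sum_compl, hnorm]
    have h5 : 0 ≤ ∑ j ∈ (B0 X Q)ᶜ, ‖X.s j i‖ ^ 2 := Finset.sum_nonneg (fun _ _ => sq_nonneg _)
    have h6 : m ≤ (p : ℤ) ^ 2 := by
      have : (m : ℝ) ≤ (p : ℝ) ^ 2 := by rw [hreal]; linarith
      exact_mod_cast this
    have h7 := eqp2 p m h3 h6 h2
    have h8 : (m : ℝ) = (p : ℝ) ^ 2 := by rw [h7]; push_cast; rfl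
    have h9 : ∑ j ∈ (B0 X Q)ᶜ, ‖X.s j i‖ ^ 2 = 0 := by linarith
    have h10 := (Finset.sum_eq_zero_iff_of_nonneg (fun _ _ => sq_nonneg _)).1 h9 j
      (Finset.mem_compl.2 (fun hc => (hBiff j).1 hc hj))
    exact norm_eq_zero.1 (pow_eq_zero_iff (two_ne_zero) |>.1 h10)
  refine ⟨hQ, hx, fun j hj => (hBcgr j ((hBiff j).2 hj)).2.1,
    fun j hj => (hBcgr j ((hBiff j).2 hj)).2.2.1,
    fun j hj => (hBcgr j ((hBiff j).2 hj)).2.2.2, ?_, ?_⟩
  · intro j i hj hi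
    rw [X.s_symm]
    exact hsup j i hj hi
  · intro j i hj hi h0
    obtain ⟨-, h1, -, h2⟩ := hBcgr j ((hBiff j).2 hj)
    have h3 := h2 i
    rw [h0, zero_sub] at h3
    have h4 : Q ((-((X.d j : ℤ) * X.y i) : ℤ) : ℂ) := by
      push_cast
      exact h3
    have h5 := (hQ.int_iff _).1 h4
    rw [dvd_neg] at h5
    rcases (Nat.prime_iff_prime_int.1 hpp).dvd_or_dvd h5 with h6 | h6
    · exact h1 (by exact_mod_cast h6)
    · exact (hBcgr i ((hBiff i).2 hi)).2.2.1 h6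

end Pool.Agent.Helper34.OS
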